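import Pool.Agent.Run7.h830.GN.Log

/-!
# Vojta's height inequality over function fields, with the truncated counting function, for pairs with an
étale covering which carries a map with many preperiodic points

`k` is an algebraically closed field of characteristic zero, `F` the function field of a smooth projective
curve `B` over `k`, and `X` an integral projective variety over `F` (of any dimension, possibly singular),
given by its function field `E` over `F` and the homogeneous coordinates `x` of its generic point:
`coords F x = ⊤` says that the ratios of the coordinates generate `E` over `F`. `K` is a finite extension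
of `E`, of any degree: the function field of a variety `X₁` with a generically finite dominant map
`X₁ ⇢ X`.

`S` is a finite nonempty set of forms over `F`, and `D` is the closed set of their common zeros in `X`.
`EtaleAt F K x G` (`Pool/Agent/Run7/h830/GN/Lift.lean`), for all `G` in `S`: over the affine open set
`{G ≠ 0}` of `X`, with the ring `A` of the functions `N / G ^ m`, the field `K` is generated by a root of a
monic polynomial `μ` over `A` with `a μ + b μ' = 1` for some polynomials `a`, `b` over `A`; so `A[T] / (μ)`
is an étale covering of `{G ≠ 0}`. Each connected finite étale covering `X₁ → X - D` of the complement of a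
closed set `D ≠ X` (with integral `X₁`) is locally of this form, so it is given by such a set `S`; and for
each finite extension `K` of `E` there are such `S` (`Pool.Agent.Run7.h830.GN.exists_etaleAt`).

`ManyPrep F d B p q` (`Pool/Agent/Q103/EC/Mxv.lean`): `f = p / q` is a rational map of degree `d` of the
projective line over `K` with at least `B` preperiodic points in `P^1(K)`, and the moduli map `X₁ ⇢ M_d`
over `F` is generically finite: if `f` is conjugate over an algebraic closure of `K` to a map with
coefficients algebraic over a field between `F` and `K`, then `K` is algebraic over this field.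

A point `P` of `X` over a finite extension `L` of `F` is given by its homogeneous coordinates in `L`.
`pht k P / [L : F]` is the height `h(P)` with respect to `O(1)` (for the model of `X` in `P^M × B`);
`canDeg k L / [L : F]` is `χ(P)`, where `canDeg k L = 2 g(B_P) - 2`. `MeetsAt S P v`: at the point `v` of the
curve `B_P` with the function field `L`, all forms `G` in `S` vanish at `P`, that is, the order of `G(P)` at
`v` is greater than `deg G` times the smallest order of a coordinate of `P`. So the number of these `v`,
divided by `[L : F]`, is the truncated counting function `N_D(P)`, for the closure of `D` in `P^M × B`, up to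
the points over a finite set of points of `B` (the poles of the coefficients of the forms, etc.), which
contribute at most a constant.

Theorem. For every `d ≥ 2` there is a number `B` such that for all such `k`, `F`, `X`, `X₁`, `D` and all maps
`f` over `K` with at least `B` preperiodic points there are a proper closed subset `Z = {G₁ = 0}` of `X`
and a constant `A` such that for all finite extensions `L` of `F` and all points `P` in `X(L)`, not in `Z`,

  `h(P) ≤ A (max (χ(P), 0) + N_D(P) + 1)`.

As `χ(P) ≥ -2` this is at most `A (χ(P) + N_D(P)) + 3 A`, and the height with respect to any other line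
bundle, for instance `K_𝒳 + 𝒟`, is at most `c h(P) + c'` outside a proper closed subset. So the inequality of
Q1 holds for all pairs `(X, D)` such that `X - D` has a finite étale covering whose function field carries
such a map `f`; `B` does not depend on the covering. For instance, `X` may be any projective model of the
moduli space `M_d` over `F`, a rational variety for `d = 2`, and `D` the union of the boundary and of the
closed set over which the covering defined by enough preperiodic points of the universal map is ramified.

The theorem `MP_4dacf8_ag.ManyPreperiodicPoints` is the case `K = E` (then `D` is not needed). Here `X` itself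
need not carry such a map, and in general the term `N_D(P)` is necessary: `X` may be a rational variety.

Proof. A point `P` lifts to a point `P'` of `X₁` over an extension `L'` of `L`, generated by a root of the
specialized polynomial `μ`. By Hensel's lemma (`Pool.Agent.Run7.h830.GN.ram_one`) `L'` is unramified over `L`
at all places at which `P` does not meet `D`, up to the bad places of `F`. So by the Hurwitz formula
`2 g(L') - 2 ≤ [L' : L] (2 g(L) - 2 + n N_D(P) + c n)`, `n = [L : F]`, and the height inequality for `P'`
(`Pool.Agent.Run7.h830.CS.vojta`, the function field version of the Chevalley-Weil argument).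
-/

set_option autoImplicit false

namespace Pool.Agent.Results.MP_4dacf8_ag.CoveredPairs

open Polynomial FF
open Pool.Agent.W602.GT (coords val IsForm)
open Pool.Agent.Y216 (OnVar)
open Pool.Agent.Q103.EC (ManyPrep)
open Pool.Agent.W603.LV (canDeg)
open Pool.Agent.W603.PV (pht)
open Pool.Agent.Run7.h830.GN (EtaleAt MeetsAt)

/-- **Vojta's height inequality over function fields** for pairs with an étale covering which carries a
map with many preperiodic points. -/
theorem result (d : ℕ) (hd : 2 ≤ d) : ∃ B : ℕ, ∀ (k F E K : Type) [Field k] [IsAlgClosed k]
    [CharZero k] [Field F] [Algebra k F] [IsFF k F] [Field E] [Algebra F E] [Field K] [Algebra F K]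
    [Algebra E K] [IsScalarTower F E K] [FiniteDimensional E K] (p q : K[X]),
    ManyPrep F d B p q → ∀ (M : ℕ) (x : Fin (M + 1) → E), x ≠ 0 → coords F x = ⊤ →
    ∀ S : Finset (MvPolynomial (Fin (M + 1)) F), S.Nonempty → (∀ G ∈ S, EtaleAt F K x G) →
    ∃ G₁ : MvPolynomial (Fin (M + 1)) F, IsForm G₁ ∧ val x G₁ ≠ 0 ∧ ∃ A : ℕ,
      ∀ (L : Type) [Field L] [Algebra k L] [Algebra F L] [IsScalarTower k F L] [IsFF k L]
        (P : Fin (M + 1) → L), OnVar F x P → val P G₁ ≠ 0 →
        {v : Place k L | MeetsAt S P v}.Finite ∧
        (pht k P : ℝ) / Module.finrank F L ≤
          A * (max ((canDeg k L : ℝ) / Module.finrank F L) 0 +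
            ({v : Place k L | MeetsAt S P v}.ncard : ℝ) / Module.finrank F L + 1) := by
  obtain ⟨B, hB⟩ := Pool.Agent.Run7.h830.GN.log_main d hd
  refine ⟨B, fun k F E K _ _ _ _ _ _ _ _ _ _ _ _ _ p q h M x hx hgen S hS hE => ?_⟩
  obtain ⟨G₁, hG, hxG, A, hA⟩ := hB k F E K p q h M x hx hgen S hS hE
  refine ⟨G₁, hG, hxG, A, fun L _ _ _ _ _ P hP hPG => ?_⟩
  obtain ⟨h0, h1⟩ := hA L P hP hPG
  refine ⟨h0, ?_⟩
  rcases Nat.eq_zero_or_pos (Module.finrank F L) with h0 | h0
  · rw [h0]
    simp
  · have hn : (0 : ℝ) < Module.finrank F L := by exact_mod_cast h0
    have h2 : (pht k P : ℝ) ≤ A * (max (canDeg k L : ℝ) 0 +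
        ({v : Place k L | MeetsAt S P v}.ncard : ℝ) + Module.finrank F L) := by
      exact_mod_cast h1
    rw [div_le_iff₀ hn]
    refine h2.trans (le_of_eq ?_)
    have h3 : max ((canDeg k L : ℝ) / Module.finrank F L) 0 * Module.finrank F L =
        max (canDeg k L : ℝ) 0 := by
      rw [max_mul_of_nonneg _ _ hn.le, div_mul_cancel₀ _ hn.ne', zero_mul]
    rw [mul_assoc, add_mul, add_mul, h3, one_mul, div_mul_cancel₀ _ hn.ne']

end Pool.Agent.Results.MP_4dacf8_ag.CoveredPairs
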