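import Pool.Agent.Run7.h789.FV.Fin

/-!
MP_4dacf8_ag, Q1: Vojta's height inequality over function fields, for all algebraic points, for the
pairs cut out in an arbitrary projective variety over a function field by ZARISKI-GENERAL
hypersurfaces, at least `n + 2` of them, in all degrees, with an empty exceptional set, with constants
which do not depend on the hypersurfaces (which may even move with the point), and with a counting
function in which each place is counted once, and the places of high multiplicity are not counted.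

Let `k` be an algebraically closed field of characteristic `0` and `E` a function field of one
variable over `k`. Let `V` be a closed subset of the projective space of dimension `M` over `E`, of
dimension at most `n`; it may be singular, reducible, and it need not be isotrivial. Let `q ≥ n + 2`,
and let `d_b ≥ 1`, `b < q`, be degrees such that at most `2 (q - n) - 2` of them are `1`, or
`n + m (n - m) ≤ m ∑ d_b` for `1 ≤ m ≤ n` and the sums over `q - m - 1` of the `b`. For instance,
`q ≥ n + 2` and at most two of the degrees are `1`; or `q ≥ 2 n + 1`, with any degrees.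

THEOREM. There are a nonzero polynomial `Φ`, with coefficients in `E`, in the coefficients of `q`
forms of degrees `d_b`, and natural numbers `A`, `μ` with the following properties.
(1) For all finite extensions `L` of `E`, all forms `F_b` of degrees `d_b` over `L` with `Φ (F) ≠ 0`
and all points `x` of `V` over `L`: `x` does not lie on all the hypersurfaces `F_b = 0`, and
  `h (x) ≤ A (max (2 g (L) - 2 + N, 0) + [L : E] + ∑ h (F_b))`,
where `N` is the number of the places of `L` at which `x` meets one of the hypersurfaces `F_b = 0`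
that do not contain `x`, with a multiplicity less than `μ`, and `h (F_b)` is the height of the
coefficient vector (all heights are relative to `L`).
(2) For all forms `F_b` over `E` with `Φ (F) ≠ 0` there is a `B` such that for all finite extensions
`L` of `E` and all points `x` of `V` over `L`
  `h (x) ≤ A (2 g (L) - 2 + N) + B [L : E]`.
This is the inequality of Q1 (which is divided by `[L : E]`), for the pairs `(X, D)` with
`X = V ∩ {F_c = 0, c ∈ C}` and `D` the union of the hypersurface sections `F_b = 0`, `b ∉ C`, for all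
subsets `C`, with empty exceptional set (outside of `D`) and with a constant `A` which depends on `V`
and the degrees only: the points of `X` off `D` are the points of `V` for which the set of the `b`
with `F_b (x) = 0` is `C`. The condition `Φ (F) ≠ 0` is an open condition, which holds for instance
for most forms with coefficients in `ℚ`.

`canDeg k L` is the degree `2 g (L) - 2` of the canonical divisors of `L` over `k`, and `Place k L`
is the set of the places, or points of the smooth projective curve with function field `L`. The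
multiplicity with which `x` meets the hypersurface `F = 0` at a place `P` is
`ord (F (x)) - min ord (F) - deg (F) min ord (x)`, with the least orders of the coefficients of `F`
and of the coordinates of `x`.
-/

set_option autoImplicit false

namespace Pool.Agent.Results.MP_4dacf8_ag.GeneralPairs

open MvPolynomial FF
open Pool.Agent.W603.LV (canDeg)

/-- The closed subset of the projective space of dimension `M` given by the forms in `V` has
dimension at most `n`: there are `n + 1` linear forms without common zero on it. -/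
def DimLE {k : Type} [Field k] {M : ℕ} (V : Set (MvPolynomial (Fin (M + 1)) k)) (n : ℕ) : Prop :=
  ∃ ℓ : Fin (n + 1) → MvPolynomial (Fin (M + 1)) k, (∀ j, (ℓ j).IsHomogeneous 1) ∧
    ∀ y : Fin (M + 1) → AlgebraicClosure k,
      (∀ H ∈ V, aeval y H = 0) → (∀ j, aeval y (ℓ j) = 0) → y = 0

/-- The numerical condition on the degrees. -/
def Numeric (n : ℕ) {q : ℕ} (d : Fin q → ℕ) : Prop :=
  n + 2 ≤ q ∧ (∀ b, 1 ≤ d b) ∧ (((Finset.univ.filter fun b => d b = 1).card + 2 ≤ 2 * (q - n)) ∨
    ∀ m, 1 ≤ m → m ≤ n → ∀ B : Finset (Fin q), B.card + m + 1 = q →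
      n + m * (n - m) ≤ m * ∑ b ∈ B, d b)

/-- The indices of the coefficients of `q` forms of degrees `d i` in `M + 1` variables. -/
abbrev Index (M : ℕ) {q : ℕ} (d : Fin q → ℕ) : Type :=
  (i : Fin q) × {β : Fin (M + 1) →₀ ℕ // β.degree = d i}

/-- `F` is a family of forms of degrees `d i`, and `Φ (F) ≠ 0`. -/
def General {k L : Type} [Field k] [Field L] [Algebra k L] {M q : ℕ} {d : Fin q → ℕ}
    (Φ : MvPolynomial (Index M d) k) (F : Fin q → MvPolynomial (Fin (M + 1)) L) : Prop :=
  (∀ i, (F i).IsHomogeneous (d i)) ∧ aeval (fun s : Index M d => coeff s.2.1 (F s.1)) Φ ≠ 0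

section

variable {k L : Type} [Field k] [Field L] [Algebra k L] {M q : ℕ}

/-- The family of the coefficients of a form of degree `e`. -/
def coeffs (e : ℕ) (F : MvPolynomial (Fin (M + 1)) L) :
    {β : Fin (M + 1) →₀ ℕ // β.degree = e} → L :=
  fun β => coeff β.1 F

/-- The least order at the place `P` of the nonzero members of a family. -/
noncomputable def minOrd {ι : Type} (P : Place k L) (x : ι → L) : ℤ :=
  ⨅ j : {j // x j ≠ 0}, P.ord (x j)

variable (k) in
/-- The height of the point with the homogeneous coordinates `x`, relative to `L`: minus the sum over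
all places of the least order of the coordinates. -/
noncomputable def height {ι : Type} (x : ι → L) : ℤ := - ∑ᶠ P : Place k L, minOrd P x

/-- The multiplicity with which the point `x` meets the hypersurface `F = 0` of degree `e` at the
place `P`. -/
noncomputable def mult (P : Place k L) (e : ℕ) (F : MvPolynomial (Fin (M + 1)) L)
    (x : Fin (M + 1) → L) : ℤ :=
  P.ord (aeval x F) - minOrd P (coeffs e F) - e * minOrd P x

variable (k) in
/-- The places at which `x` meets one of the hypersurfaces `F b = 0` that do not contain `x`, with a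
multiplicity less than `μ`. -/
def counted (μ : ℕ) (d : Fin q → ℕ) (F : Fin q → MvPolynomial (Fin (M + 1)) L)
    (x : Fin (M + 1) → L) : Set (Place k L) :=
  {P | ∃ b, aeval x (F b) ≠ 0 ∧ 0 < mult P (d b) (F b) x ∧ mult P (d b) (F b) x < μ}

end

section Proof

open Pool.Agent.NH29.GN (Idx Mon fv val)
open Pool.Agent.Run7.h789.FV
open Pool.Agent.W603.LV Pool.Agent.W603.PV

theorem sum_eq {L : Type} [Field L] {M e : ℕ} {F : MvPolynomial (Fin (M + 1)) L}
    (hF : F.IsHomogeneous e) (x : Fin (M + 1) → L) :
    ∑ β : Mon M e, algebraMap L L (coeff β.1 F) * val x β.1 = aeval x F := by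
  classical
  rw [aeval_def]
  exact (Pool.Agent.NH29.GN.Stc.eval₂_form (algebraMap L L) x hF).symm

theorem fv_eq {L : Type} [Field L] {M q : ℕ} {d : Fin q → ℕ}
    {F : Fin q → MvPolynomial (Fin (M + 1)) L} (hF : ∀ i, (F i).IsHomogeneous (d i))
    (x : Fin (M + 1) → L) (b : Fin q) :
    fv (K := L) (L := L) (fun s : Idx M d => coeff s.2.1 (F s.1)) x b = aeval x (F b) :=
  sum_eq (hF b) x

theorem num2_of {n q : ℕ} {d : Fin q → ℕ} (h : Numeric n d) (C : Finset (Fin q))
    (hC : C ≠ Finset.univ) : Pool.Agent.NH29.GN.Num2 n d C := by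
  obtain ⟨h1, h2, h3 | h3⟩ := h
  · exact Pool.Agent.NH29.GN.Fn.num_of_few h2 h1 h3 C hC
  · exact Pool.Agent.NH29.GN.Fn.num_of_sum h1 h3 C hC

theorem counted_eq {k L : Type} [Field k] [Field L] [Algebra k L] {M q : ℕ} {d : Fin q → ℕ}
    {F : Fin q → MvPolynomial (Fin (M + 1)) L} (hF : ∀ i, (F i).IsHomogeneous (d i)) (μ : ℕ)
    (x : Fin (M + 1) → L) :
    low k μ (van (fun s : Idx M d => coeff s.2.1 (F s.1)) x)
      (fun s : Idx M d => coeff s.2.1 (F s.1)) x = counted k μ d F x := by
  classical
  ext P
  refine exists_congr fun b => ?_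
  have h1 : mord P (fun β : Mon M (d b) => coeff β.1 (F b)) = minOrd P (coeffs (d b) (F b)) := rfl
  have h2 : mord P x = minOrd P x := rfl
  simp only [van, Finset.mem_filter, Finset.mem_univ, true_and, fv_eq hF, mult, h1, h2]
  constructor
  · rintro ⟨h3, h4, h5⟩
    exact ⟨h3, by omega, by omega⟩
  · rintro ⟨h3, h4, h5⟩
    exact ⟨h3, by omega, by omega⟩

theorem main {k₀ : Type} [Field k₀] [CharZero k₀] (c₀ : k₀ → ℕ) {M n q : ℕ}
    {V : Set (MvPolynomial (Fin (M + 1)) k₀)} (hV : ∀ H ∈ V, ∃ e, H.IsHomogeneous e)
    (hdim : DimLE V n) {d : Fin q → ℕ} (hnum : Numeric n d) :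
    ∃ Φ : MvPolynomial (Index M d) k₀, Φ ≠ 0 ∧ ∃ A μ : ℕ,
      ∀ (k L : Type) [Field k] [Field L] [IsAlgClosed k] [CharZero k] [Algebra k L]
        [Algebra k₀ L] [IsFF k L] (w : ℕ), (∀ a : k₀, hgt k (algebraMap k₀ L a) ≤ c₀ a * w) →
      ∀ F : Fin q → MvPolynomial (Fin (M + 1)) L, General Φ F → ∀ x : Fin (M + 1) → L, x ≠ 0 →
        (∀ H ∈ V, aeval x H = 0) → (∃ b, aeval x (F b) ≠ 0) ∧
          height k x ≤ A * (max (canDeg k L + (counted k μ d F x).ncard) 0 + w +
            ∑ b, height k (coeffs (d b) (F b))) := by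
  obtain ⟨ℓ, hℓ, hZ⟩ := hdim
  obtain ⟨Φ, h1, A, μ, h2⟩ := fv_all c₀ hV hℓ
    (Pool.Agent.NH29.GN.Fn.noZero_of_points (K := AlgebraicClosure k₀) hZ)
    (le_trans (Nat.le_succ _) hnum.1) hnum.2.1 (num2_of hnum)
  refine ⟨Φ, h1, A, μ, fun k L _ _ _ _ _ _ _ w hw F hF x hx hxV => ?_⟩
  obtain ⟨ht0, h3⟩ := h2 k L w hw (fun s : Idx M d => coeff s.2.1 (F s.1)) hF.2
  obtain ⟨⟨b, hb⟩, h4⟩ := h3 x hx hxV
  refine ⟨⟨b, by rwa [fv_eq hF.1] at hb⟩, ?_⟩
  unfold rhsL at h4
  rw [counted_eq hF.1] at h4
  exact h4

end Proof

/-- Vojta's height inequality over function fields for Zariski-general pairs. -/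
theorem result {k E : Type} [Field k] [IsAlgClosed k] [CharZero k] [Field E] [Algebra k E]
    [IsFF k E] {M n q : ℕ} {d : Fin q → ℕ} (hd : Numeric n d)
    (V : Set (MvPolynomial (Fin (M + 1)) E)) (hV : ∀ H ∈ V, ∃ e, H.IsHomogeneous e)
    (hdim : DimLE V n) :
    ∃ Φ : MvPolynomial (Index M d) E, Φ ≠ 0 ∧ ∃ A μ : ℕ,
      -- (1) forms over finite extensions of `E`
      (∀ (L : Type) [Field L] [Algebra k L] [Algebra E L] [IsScalarTower k E L]
        [FiniteDimensional E L] (F : Fin q → MvPolynomial (Fin (M + 1)) L), General Φ F →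
        ∀ x : Fin (M + 1) → L, x ≠ 0 → (∀ H ∈ V, aeval x H = 0) →
          (∃ b, aeval x (F b) ≠ 0) ∧
          height k x ≤ A * (max (canDeg k L + (counted k μ d F x).ncard) 0 +
            Module.finrank E L + ∑ b, height k (coeffs (d b) (F b)))) ∧
      -- (2) forms over `E`
      ∀ F : Fin q → MvPolynomial (Fin (M + 1)) E, General Φ F → ∃ B : ℕ,
        ∀ (L : Type) [Field L] [Algebra k L] [Algebra E L] [IsScalarTower k E L]
          [FiniteDimensional E L] (x : Fin (M + 1) → L), x ≠ 0 → (∀ H ∈ V, aeval x H = 0) →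
          (∃ b, aeval x (F b) ≠ 0) ∧ height k x ≤
            A * (canDeg k L + (counted k μ d (fun b => map (algebraMap E L) (F b)) x).ncard) +
              B * Module.finrank E L := by
  have hE : CharZero E := charZero_of_injective_algebraMap (algebraMap k E).injective
  obtain ⟨Φ, h1, A, μ, h2⟩ := main (fun a : E => (Pool.Agent.W603.LV.hgt k a).toNat) hV hdim hd
  have h3 : ∀ (L : Type) [Field L] [Algebra k L] [Algebra E L] [IsScalarTower k E L]
      [FiniteDimensional E L] (F : Fin q → MvPolynomial (Fin (M + 1)) L), General Φ F →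
      ∀ x : Fin (M + 1) → L, x ≠ 0 → (∀ H ∈ V, aeval x H = 0) →
        (∃ b, aeval x (F b) ≠ 0) ∧
          height k x ≤ A * (max (canDeg k L + (counted k μ d F x).ncard) 0 +
            Module.finrank E L + ∑ b, height k (coeffs (d b) (F b))) := by
    intro L _ _ _ _ _ F hF x hx hxV
    have hL : IsFF k L := Pool.Agent.W603.PV.isFF_of_finite (F := E)
    refine h2 k L (Module.finrank E L) (fun a => ?_) F hF x hx hxV
    rw [Pool.Agent.W603.PV.hgt_algebraMap, Int.toNat_of_nonneg
      (Pool.Agent.W603.LV.hgt_nonneg _), mul_comm]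
  refine ⟨Φ, h1, A, μ, fun L _ _ _ _ _ => h3 L, fun F hF => ?_⟩
  choose B₁ hB₁ using fun b => Pool.Agent.Run7.h789.FV.exists_mht (k := k) (coeffs (d b) (F b))
  obtain ⟨B₂, hB₂⟩ := Pool.Agent.Run7.h789.FV.exists_canDeg (k := k) (E := E)
  refine ⟨A * (1 + ∑ b, B₁ b + B₂), fun L _ _ _ _ _ x hx hxV => ?_⟩
  have hG : General Φ (fun b => map (algebraMap E L) (F b)) := by
    refine ⟨fun i => (hF.1 i).map _, ?_⟩
    have h4 : (fun s : Index M d => coeff s.2.1 (map (algebraMap E L) (F s.1))) =
        algebraMap E L ∘ fun s : Index M d => coeff s.2.1 (F s.1) := by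
      funext s
      exact coeff_map _ _ _
    rw [h4, aeval_algebraMap_apply]
    exact fun h => hF.2 ((map_eq_zero _).1 h)
  obtain ⟨⟨b, hb⟩, h4⟩ := h3 L _ hG x hx hxV
  refine ⟨⟨b, ?_⟩, h4.trans ?_⟩
  · rwa [aeval_map_algebraMap] at hb
  · have h5 : ∀ b, height k (coeffs (d b) (map (algebraMap E L) (F b))) ≤
        B₁ b * Module.finrank E L := by
      intro b
      have h6 : coeffs (d b) (map (algebraMap E L) (F b)) =
          fun j => algebraMap E L (coeffs (d b) (F b) j) := by
        funext β
        exact coeff_map _ _ _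
      rw [h6]
      exact hB₁ b L
    have h6 : ∑ b, height k (coeffs (d b) (map (algebraMap E L) (F b))) ≤
        ∑ b, (B₁ b : ℤ) * Module.finrank E L := Finset.sum_le_sum fun b _ => h5 b
    rw [← Finset.sum_mul] at h6
    have h7 := hB₂ L
    set N : ℤ := ((counted k μ d (fun b => map (algebraMap E L) (F b)) x).ncard : ℤ) with hN
    have hN0 : 0 ≤ N := Int.natCast_nonneg _
    set r : ℤ := (Module.finrank E L : ℤ) with hr
    have hr0 : 0 ≤ r := Int.natCast_nonneg _
    have hB0 : (0 : ℤ) ≤ B₂ * r := mul_nonneg (Int.natCast_nonneg _) hr0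
    have h8 : max (canDeg k L + N) 0 ≤ canDeg k L + N + B₂ * r :=
      max_le (by linarith) (by linarith)
    calc (A : ℤ) * (max (canDeg k L + N) 0 + r +
          ∑ b, height k (coeffs (d b) (map (algebraMap E L) (F b))))
        ≤ A * (canDeg k L + N + B₂ * r + r + (∑ b, (B₁ b : ℤ)) * r) :=
          mul_le_mul_of_nonneg_left (by linarith) (Int.natCast_nonneg _)
      _ = _ := by
          push_cast
          ring

end Pool.Agent.Results.MP_4dacf8_ag.GeneralPairs
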