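import Pool.Agent.Run7.h34.GK.EffC

/-!
MP_4dacf8_ag, Q1, for constant pairs: Vojta's height inequality for the pairs cut out in `P^n` by
general hypersurfaces together with ARBITRARY `n + 1` independent hyperplanes, with a constant which
does not depend on the hypersurfaces and hyperplanes, with empty exceptional set, with truncated
counting function in which moreover the places where the point is highly tangent to a hyperplane are
not counted.

Let `F_i`, `i < q`, be forms of degrees `d_i ≥ 1` in `n + 1` variables over `ℂ` which are general:
`Φ (F) ≠ 0` for a polynomial `Φ ≠ 0` in their coefficients which depends on `n` and the degrees only.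
Let `ℓ_j`, `j ≤ n`, be any linear forms without common zeros in `P^n`. For a set `Z` of indices with
`2 n + 1 ≤ ∑ d_i + #Z` the points of the pair `X = {F_i = 0, i ∈ Z}`, `D = X ∩ {∏ F_i = 0, i ∉ Z}` with
values in a function field `L` of one variable over `ℂ`, off `D`, are the points `b` of `P^n (L)` for
which `{i | F_i (b) = 0} = Z`. The pairs `(X, D + ∑ (ℓ_j = 0))` are of log general type, since
`K_X + D` is `∑ d_i - n - 1` times the hyperplane section.

THEOREM. There are `m` and `R`, which depend on `n` and the degrees only, such that
`h (b) ≤ R (2 g (L) - 2 + N)` for all such `F`, `ℓ`, `L` and all nonconstant points `b` with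
`2 n + 1 ≤ ∑ d_i + #{i | F_i (b) = 0}`, where `N` is the number of the places of `L` at which `b` meets
one of the `F_i = 0` not containing `b`, or at which `b` meets some of the hyperplanes `ℓ_j = 0` not
containing `b`, but all these with multiplicities less than `m`. More generally, for all closed
subvarieties `Y` (of positive dimension) of these pairs `R (K_Y + D_Y) - H` is effective, where `D_Y`
is the sum of the prime divisors over `Y` which are counted in the same way.

`pht ℂ b` (`Pool/Agent/W603/PV/Hgt.lean`) is the height, minus the sum over the places `P` of the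
minimum `pord P b` of the orders of the coordinates; `canDeg ℂ L = 2 g (L) - 2`
(`W603/LV/Ex.lean`); `CI n d` (`TH182/VD/Main.lean`): the indices `(i, α)`, `|α| = d i`, of the
coefficients; `Form n`: linear forms; `Counted` (`Run7/h34/GK/EffC.lean`): the places which are counted;
`Effective K R w Bd b` (`TH152/DS/LangDefs.lean`): there is a nonzero rational section of `R` times the
canonical bundle of the variety of dimension `w` with function field `K` whose products with all
coordinates `b j` have at most logarithmic poles at all prime divisors, and are regular at those which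
are not in `Bd`.
-/

set_option autoImplicit false

namespace Pool.Agent.Results.MP_4dacf8_ag.RamifiedHyperplanes

open FF MvPolynomial Run7.h34.GK
open Pool.Agent.TH182.VD (CI)
open Pool.Agent.W602.Cov Pool.Agent.W602.Cov.Cover Pool.Agent.W602.Cov.R Pool.Agent.TH152.HY
open Pool.Agent.TH152.DS (Effective)
open Pool.Agent.W603.LV (canDeg)
open Pool.Agent.W603.PV (pht)

/-- For all `n` and all degrees `d i ≥ 1`, `i < q`, there are `m`, `R > 0` and a polynomial `Φ ≠ 0` in
the coefficients of `q` forms of the degrees `d i` in `n + 1` variables such that the following holds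
for all forms `F` at which `Φ` does not vanish and for all systems of `n + 1` hyperplanes `ℓ j = 0` of
`P^n` without common points.

(1) For all function fields `L` of one variable and all nonconstant points `b` of `P^n (L)` such that
`2 n + 1 ≤ ∑ d i + #{i | F i (b) = 0}`, only finitely many places `P` are counted, and the height of `b`
is at most `R` times the sum of `2 g - 2` and the number of the places which are counted.

(2) For all finitely generated fields `L` of transcendence degree `w > 0` and all points `b` of
`P^n (L)` whose quotients of coordinates generate a field over which `L` is algebraic, with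
`2 n + 1 ≤ ∑ d i + #{i | F i (b) = 0}`: `R (K + B) - H` is effective, where `K` is the canonical class of
the variety with function field `L`, `B` the sum of the prime divisors which are counted, and `H` the
pull-back of the hyperplane class. -/
theorem result (n q : ℕ) (d : Fin q → ℕ) (hd : ∀ i, 1 ≤ d i) :
    ∃ (m R : ℕ) (Φ : MvPolynomial (CI n d) ℂ), 0 < R ∧ Φ ≠ 0 ∧
      ∀ F : Fin q → MvPolynomial (Fin (n + 1)) ℂ, (∀ i, (F i).IsHomogeneous (d i)) →
        eval (fun x : CI n d => coeff x.2.1 (F x.1)) Φ ≠ 0 →
      ∀ ℓ : Fin (n + 1) → Form n, (∀ x, (∀ j, ℓ j x = 0) → x = 0) →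
        (∀ (L : Type) [Field L] [Algebra ℂ L] [IsFF ℂ L] (b : Fin (n + 1) → L),
          (∃ i j, b j ≠ 0 ∧ b i / b j ∉ Set.range (algebraMap ℂ L)) →
          2 * n + 1 ≤ ∑ i, d i + {i | aeval b (F i) = 0}.ncard →
          {P : Place ℂ L | Counted m F d ℓ b P}.Finite ∧
            pht ℂ b ≤ R * (canDeg ℂ L + {P : Place ℂ L | Counted m F d ℓ b P}.ncard)) ∧
        ∀ (L : Type) [Field L] [Algebra ℂ L] (b : Fin (n + 1) → L) (w : ℕ), b ≠ 0 →
          Algebra.trdeg ℂ L = w → 0 < w →
          Algebra.IsAlgebraic
            (IntermediateField.adjoin ℂ {f : L | ∃ i j, b j ≠ 0 ∧ f = b i / b j}) L →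
          2 * n + 1 ≤ ∑ i, d i + {i | aeval b (F i) = 0}.ncard →
          Effective L R w (Counted m F d ℓ b) b := by
  classical
  obtain ⟨Φ, h1, h2⟩ := exists_phi n q d
  refine ⟨mlog n q d, RR (nj n q (dd d)) 2, Φ, RR_pos _ _, h1, fun F hF hΦ ℓ hℓ => ?_⟩
  have hind := lin_of hℓ
  have hZ : ∀ {L : Type} [Field L] [Algebra ℂ L] (b : Fin (n + 1) → L),
      2 * n + 1 ≤ ∑ i, d i + {i | aeval b (F i) = 0}.ncard →
      ∃ Z : Finset (Fin q), (∀ i, aeval b (F i) = 0 ↔ i ∈ Z) ∧ 2 * n + 1 ≤ ∑ i, d i + Z.card := by
    intro L _ _ b hb
    refine ⟨Finset.univ.filter fun i => aeval b (F i) = 0, fun i => by simp, ?_⟩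
    have h3 : {i | aeval b (F i) = 0}.ncard =
        (Finset.univ.filter fun i => aeval b (F i) = 0).card := by
      rw [← Set.ncard_coe_finset]
      congr 1
      ext i
      simp
    rwa [h3] at hb
  refine ⟨fun L _ _ _ b hb hle => ?_, fun L _ _ b w hb htr hw halg hle => ?_⟩
  · obtain ⟨Z, hZ1, hZ2⟩ := hZ b hle
    have hb0 : b ≠ 0 := by
      obtain ⟨i, j, hj, -⟩ := hb
      exact fun h => hj (congrFun h j)
    exact ⟨counted_finite hb0, counted_height (dd_pos hd) hF (dd_mul d) (h2 F hF hΦ Z hZ2) hind hb
      hZ1⟩
  · obtain ⟨Z, hZ1, hZ2⟩ := hZ b hle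
    exact counted_eff (dd_pos hd) hF (dd_mul d) (h2 F hF hΦ Z hZ2) hind hb hZ1 hw htr halg

end Pool.Agent.Results.MP_4dacf8_ag.RamifiedHyperplanes
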